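import Pool.Agent.Work.MP_64ea0f_cs.InterfaceB

set_option autoImplicit false

/-! # COF: cofiniteness of the parabolic subgroups on the cubing -/

namespace Pool.CS
namespace COFp

variable (D : Rd)

/-- the flippable roots of `x` which are not positive -/
def T (x : Set D.V) : Set D.V := {φ | D.Mn x φ ∧ φ ∉ D.Ps}

open Classical in
/-- the same, as a finset -/
noncomputable def FS (x : Set D.V) : Finset D.V :=
  if h : (T D x).Finite then h.toFinset else ∅

/-- the sum of their negatives -/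
noncomputable def FF (x : Set D.V) : D.V := ∑ φ ∈ FS D x, -φ

/-- the potential -/
noncomputable def p (x : Set D.V) : ℝ := D.ht (FF D x)

theorem T_fin {x : Set D.V} (hx : D.Vx x) : (T D x).Finite :=
  hx.fin.subset fun _ hφ => ⟨hφ.1.1, hφ.2⟩

theorem mem_FS {x : Set D.V} (hx : D.Vx x) (φ : D.V) :
    φ ∈ FS D x ↔ D.Mn x φ ∧ φ ∉ D.Ps := by
  unfold FS
  rw [dif_pos (T_fin D hx)]
  simp [T]

theorem ht_add (v w : D.V) : D.ht (v + w) = D.ht v + D.ht w := by
  unfold Rd.ht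
  simp [Finset.sum_add_distrib]

theorem ht_zero : D.ht 0 = 0 := by
  unfold Rd.ht
  simp

theorem ht_neg (v : D.V) : D.ht (-v) = - D.ht v := by
  unfold Rd.ht
  simp

theorem ht_sum {ι : Type} (A : Finset ι) (f : ι → D.V) :
    D.ht (∑ i ∈ A, f i) = ∑ i ∈ A, D.ht (f i) := by
  classical
  induction A using Finset.induction_on with
  | empty => simpa using ht_zero D
  | insert a A ha ih => rw [Finset.sum_insert ha, Finset.sum_insert ha, ht_add, ih]

theorem ht_e (s : D.S) : D.ht (D.e s) = 1 := by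
  unfold Rd.ht Rd.e
  simp

theorem ht_smul (a : ℝ) (v : D.V) : D.ht (a • v) = a * D.ht v := by
  unfold Rd.ht
  simp [Finset.mul_sum]

theorem B_e (v : D.V) (s : D.S) : D.B v (D.e s) = ∑ t, v t * D.k t s := by
  unfold Rd.B bform Rd.e
  refine Finset.sum_congr rfl fun t _ => ?_
  rw [Finset.sum_eq_single s]
  · simp
  · intro b _ hb
    simp [hb]
  · intro h
    exact absurd (Finset.mem_univ s) h

theorem ht_refl (s : D.S) (v : D.V) :
    D.ht (D.ρ (D.σ s) v) = D.ht v - 2 * D.B v (D.e s) := by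
  have h := D.refl s v
  have h1 : D.ρ (D.σ s) v = v + (-(2 * D.B v (D.e s))) • D.e s := by
    rw [h]
    unfold Rd.B Rd.e
    rw [neg_smul]
    rfl
  rw [h1, ht_add, ht_smul, ht_e]
  ring

theorem B_add (hB : Stmt_BAS) (v v' w : D.V) : D.B (v + v') w = D.B v w + D.B v' w := by
  have := (hB D).2.1 1 1 v v' w
  simpa using this

theorem B_zero (hB : Stmt_BAS) (w : D.V) : D.B 0 w = 0 := by
  have := (hB D).2.1 0 0 0 0 w
  simpa using this

theorem B_sum (hB : Stmt_BAS) (A : Finset D.V) (f : D.V → D.V) (w : D.V) :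
    D.B (∑ φ ∈ A, f φ) w = ∑ φ ∈ A, D.B (f φ) w := by
  classical
  induction A using Finset.induction_on with
  | empty => simpa using B_zero D hB w
  | insert a A ha ih => rw [Finset.sum_insert ha, Finset.sum_insert ha, B_add D hB, ih]

theorem B_sum' (hB : Stmt_BAS) (A : Finset D.V) (f : D.V → D.V) (w : D.V) :
    D.B w (∑ φ ∈ A, f φ) = ∑ φ ∈ A, D.B w (f φ) := by
  rw [(hB D).1, B_sum D hB]
  exact Finset.sum_congr rfl fun φ _ => (hB D).1 _ _

theorem B_neg_neg (hB : Stmt_BAS) (v w : D.V) : D.B (-v) (-w) = D.B v w := by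
  have h1 : ∀ v w, D.B (-v) w = - D.B v w := by
    intro v w
    have := (hB D).2.1 (-1) 0 v 0 w
    simpa using this
  rw [h1, (hB D).1, h1, neg_neg, (hB D).1]

/-- roots in `T` have positive negatives -/
theorem neg_pos (hS : Stmt_SGN) {x : Set D.V} (hx : D.Vx x) {φ : D.V} (h : φ ∈ FS D x) :
    -φ ∈ D.Ps := by
  rw [mem_FS D hx] at h
  rcases (hS D).1 φ (hx.sub h.1.1) with h1 | h1
  · exact absurd h1 h.2
  · exact h1

theorem ht_nonneg {φ : D.V} (h : φ ∈ D.Ps) : 0 ≤ D.ht φ :=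
  Finset.sum_nonneg fun s _ => h.2 s

theorem ht_le (hS : Stmt_SGN) {x : Set D.V} (hx : D.Vx x) {φ : D.V} (h : φ ∈ FS D x) :
    D.ht (-φ) ≤ p D x := by
  unfold p FF
  rw [ht_sum]
  exact Finset.single_le_sum (f := fun φ => D.ht (-φ))
    (fun ψ hψ => ht_nonneg D (neg_pos D hS hx hψ)) h

theorem FS_inj_aux (hS : Stmt_SGN) (h1 : Stmt_VX1) (h4 : Stmt_VX4) {x y : Set D.V} (hx : D.Vx x)
    (hy : D.Vx y) (h : FS D x = FS D y) : x \ D.Ps ⊆ y := by
  rintro χ ⟨hχ, hχ'⟩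
  obtain ⟨ψ, hψ, hψ', hs, -⟩ := h4 D x hx D.Ps (h1 D).1 χ hχ hχ'
  have hm : ψ ∈ FS D y := by
    rw [← h, mem_FS D hx]
    exact ⟨hψ, hψ'⟩
  rw [mem_FS D hy] at hm
  exact (h1 D).2.2.2.2.2.2.2.2.2.1 y hy ψ hm.1.1 χ (hx.sub hχ) hs

theorem FS_inj_aux2 (hS : Stmt_SGN) (h1 : Stmt_VX1) {x y : Set D.V} (hx : D.Vx x)
    (hy : D.Vx y) (h : x \ D.Ps ⊆ y) (h' : y \ D.Ps ⊆ x) : x ⊆ y := by
  intro χ hχ
  by_cases hp : χ ∈ D.Ps
  · by_contra hn
    rcases hy.tot χ (hx.sub hχ) with h2 | h2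
    · exact hn h2
    · have h3 : -χ ∉ D.Ps := (hS D).2.1 χ hp
      exact (h1 D).2.2.2.2.2.2.2.2.1 x hx χ hχ (h' ⟨h2, h3⟩)
  · exact h ⟨hχ, hp⟩

theorem FS_inj (hS : Stmt_SGN) (h1 : Stmt_VX1) (h4 : Stmt_VX4) {x y : Set D.V} (hx : D.Vx x)
    (hy : D.Vx y) (h : FS D x = FS D y) : x = y := by
  have ha := FS_inj_aux D hS h1 h4 hx hy h
  have hb := FS_inj_aux D hS h1 h4 hy hx h.symm
  exact Set.Subset.antisymm (FS_inj_aux2 D hS h1 hx hy ha hb) (FS_inj_aux2 D hS h1 hy hx hb ha)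

theorem fin_le (hS : Stmt_SGN) (hH : Stmt_HGT) (h1 : Stmt_VX1) (h4 : Stmt_VX4) (c : ℝ) :
    {x | D.Vx x ∧ p D x ≤ c}.Finite := by
  classical
  have hQ : {φ : D.V | -φ ∈ D.Ps ∧ D.ht (-φ) ≤ c}.Finite := by
    have := (hH D c).preimage (f := fun φ : D.V => -φ) (fun a _ b _ h => neg_injective h)
    exact this
  have hF : ((hQ.toFinset.powerset : Finset (Finset D.V)) : Set (Finset D.V)).Finite :=
    Finset.finite_toSet _
  refine Set.Finite.of_finite_image (f := FS D) (hF.subset ?_) ?_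
  · rintro _ ⟨x, ⟨hx, hc⟩, rfl⟩
    simp only [Finset.coe_powerset, Set.mem_preimage, Set.mem_powerset_iff]
    intro φ hφ
    have hφ' : φ ∈ FS D x := by simpa using hφ
    simp only [Set.Finite.coe_toFinset]
    exact ⟨neg_pos D hS hx hφ', (ht_le D hS hx hφ').trans hc⟩
  · rintro x ⟨hx, -⟩ y ⟨hy, -⟩ h
    exact FS_inj D hS h1 h4 hx hy h

theorem XJ_act (hP : Stmt_PAR) (h1 : Stmt_VX1) {J : Set D.S} {x : Set D.V} (hx : D.XJ J x)
    {w : D.W} (hw : w ∈ D.par J) : D.XJ J (D.act w x) := by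
  refine ⟨(h1 D).2.1 x hx.1 w, fun φ hφ hJ => ?_⟩
  rw [(h1 D).2.2.2.2.2.1]
  have hw' : w⁻¹ ∈ D.par J := inv_mem hw
  refine hx.2 _ ((hP D J).2.2.2.2.2 _ hw' φ hφ hJ) fun hI => hJ ?_
  intro s hs
  have h2 := (hP D J).2.2.1 _ hw' φ s hs
  have h3 := hI s hs
  simp only [Pi.sub_apply] at h2
  linarith

theorem In_neg (hS : Stmt_SGN) (h1 : Stmt_VX1) {J : Set D.S} {x : Set D.V} (hx : D.XJ J x)
    {φ : D.V} (h : φ ∈ FS D x) : D.In J (-φ) := by
  by_contra hn
  have h2 := hx.2 (-φ) (neg_pos D hS hx.1 h) hn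
  rw [mem_FS D hx.1] at h
  exact (h1 D).2.2.2.2.2.2.2.2.1 x hx.1 φ h.1.1 h2

theorem FF_nonneg (hS : Stmt_SGN) {x : Set D.V} (hx : D.Vx x) (s : D.S) : 0 ≤ FF D x s := by
  unfold FF
  rw [Finset.sum_apply]
  exact Finset.sum_nonneg fun φ hφ => (neg_pos D hS hx hφ).2 s

theorem FF_In (hS : Stmt_SGN) (h1 : Stmt_VX1) {J : Set D.S} {x : Set D.V} (hx : D.XJ J x) :
    D.In J (FF D x) := by
  intro s hs
  unfold FF
  rw [Finset.sum_apply]
  exact Finset.sum_eq_zero fun φ hφ => In_neg D hS h1 hx hφ s hs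

theorem pair (hS : Stmt_SGN) (h3 : Stmt_VX3) {x : Set D.V} (hx : D.Vx x) {φ ψ : D.V}
    (hφ : φ ∈ FS D x) (hψ : ψ ∈ FS D x) (hne : φ ≠ ψ) : |D.B φ ψ| < 1 := by
  have hn := neg_pos D hS hx hφ
  rw [mem_FS D hx] at hφ hψ
  rcases (h3 D x hx φ ψ).1 hφ.1 hψ.1 hne with h | ⟨-, h⟩
  · exact h
  · exfalso
    have h5 := h 1 (by unfold Rd.On; simpa using hn)
    unfold Rd.On at h5
    exact hψ.2 (by simpa using h5)

theorem BFF (hB : Stmt_BAS) (hS : Stmt_SGN) (h3 : Stmt_VX3) {x : Set D.V} (hx : D.Vx x) {n : ℕ}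
    (hn : (FS D x).card ≤ n) : -((n : ℝ) ^ 2) ≤ D.B (FF D x) (FF D x) := by
  unfold FF
  rw [B_sum D hB]
  have h : ∀ φ ∈ FS D x, -(n : ℝ) ≤ D.B (-φ) (∑ ψ ∈ FS D x, -ψ) := by
    intro φ hφ
    rw [B_sum' D hB]
    have h5 : ∀ ψ ∈ FS D x, (-1 : ℝ) ≤ D.B (-φ) (-ψ) := by
      intro ψ hψ
      rw [B_neg_neg D hB]
      by_cases he : φ = ψ
      · have h6 : φ ∈ D.Rt := by
          rw [mem_FS D hx] at hφ
          exact hx.sub hφ.1.1
        rw [← he, (hB D).2.2.2.2.2.1 φ h6]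
        norm_num
      · have := pair D hS h3 hx hφ hψ he
        exact (abs_lt.mp this).1.le
    calc -(n : ℝ) ≤ -((FS D x).card : ℝ) := by
            have : ((FS D x).card : ℝ) ≤ n := by exact_mod_cast hn
            linarith
      _ = ∑ _ψ ∈ FS D x, (-1 : ℝ) := by simp
      _ ≤ _ := Finset.sum_le_sum h5
  calc -((n : ℝ) ^ 2) ≤ -(((FS D x).card : ℝ) * n) := by
          have : ((FS D x).card : ℝ) ≤ n := by exact_mod_cast hn
          have h0 : (0 : ℝ) ≤ n := Nat.cast_nonneg n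
          nlinarith
    _ = ∑ _φ ∈ FS D x, (-(n : ℝ)) := by simp
    _ ≤ _ := Finset.sum_le_sum h

/-- the reflection in a simple root -/
theorem p_refl (hB : Stmt_BAS) (hS : Stmt_SGN) (h1 : Stmt_VX1) {x : Set D.V} (hx : D.Vx x)
    (s : D.S) : p D (D.act (D.σ s) x) ≤ p D x - 2 * D.B (FF D x) (D.e s) + 1 := by
  classical
  have hx' : D.Vx (D.act (D.σ s) x) := (h1 D).2.1 x hx _
  have hss : D.σ s * D.σ s = 1 := by
    have := (hB D).2.2.2.2.2.2.2.2.2.2.1 (D.e s) ((hB D).2.2.2.2.2.2.1 s)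
    rwa [(hB D).2.2.2.2.2.2.2.2.2.2.2.2.2.1 s] at this
  have hinv : ∀ v, D.ρ (D.σ s) (D.ρ (D.σ s) v) = v := by
    intro v
    have : D.ρ (D.σ s * D.σ s) v = v := by rw [hss]; simp
    simpa using this
  have hes : D.ρ (D.σ s) (D.e s) = - D.e s := by
    have h := (hB D).2.2.2.2.2.2.2.2.2.1 (D.e s) ((hB D).2.2.2.2.2.2.1 s) (D.e s)
    rw [(hB D).2.2.2.2.2.2.2.2.2.2.2.2.2.1 s, (hB D).2.2.2.2.2.1 _ ((hB D).2.2.2.2.2.2.1 s)] at h
    rw [h]
    module
  -- the height of the image of a root in `FS`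
  have hpx : p D x - 2 * D.B (FF D x) (D.e s) = ∑ φ ∈ FS D x, D.ht (D.ρ (D.σ s) (-φ)) := by
    unfold p
    rw [← ht_refl]
    unfold FF
    rw [map_sum, ht_sum]
  rw [hpx]
  have hpx' : p D (D.act (D.σ s) x) = ∑ φ ∈ FS D (D.act (D.σ s) x), D.ht (-φ) := by
    unfold p FF
    rw [ht_sum]
  rw [hpx']
  -- reindex
  have hmn : ∀ φ, D.Mn (D.act (D.σ s) x) φ ↔ D.Mn x (D.ρ (D.σ s) φ) := by
    intro φ
    rw [(h1 D).2.2.2.2.2.2.1 x hx (D.σ s) (D.ρ (D.σ s) φ), hinv]
  have hsum : ∑ φ ∈ FS D x, D.ht (D.ρ (D.σ s) (-φ)) =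
      ∑ φ ∈ (FS D x).image (D.ρ (D.σ s)), D.ht (-φ) := by
    rw [Finset.sum_image]
    · exact Finset.sum_congr rfl fun φ _ => by rw [map_neg]
    · intro a _ b _ hab
      have := congrArg (D.ρ (D.σ s)) hab
      rwa [hinv, hinv] at this
  rw [hsum]
  -- `φ` not `± e s` is in both or neither
  have hkey : ∀ φ, φ ≠ D.e s → φ ≠ -D.e s →
      (φ ∈ FS D (D.act (D.σ s) x) ↔ φ ∈ (FS D x).image (D.ρ (D.σ s))) := by
    intro φ h2 h3
    rw [mem_FS D hx', hmn]
    simp only [Finset.mem_image]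
    constructor
    · rintro ⟨ha, hb⟩
      refine ⟨D.ρ (D.σ s) φ, ?_, hinv φ⟩
      rw [mem_FS D hx]
      refine ⟨ha, fun hc => hb ?_⟩
      have h5 := (hS D).2.2.2.2.1 s _ hc (by
        intro h6
        apply h3
        have := congrArg (D.ρ (D.σ s)) h6
        rwa [hinv, hes] at this)
      rwa [hinv] at h5
    · rintro ⟨ψ, hψ, rfl⟩
      rw [mem_FS D hx] at hψ
      rw [hinv]
      refine ⟨hψ.1, fun hc => hψ.2 ?_⟩
      have h5 := (hS D).2.2.2.2.1 s _ hc h2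
      rwa [hinv] at h5
  -- `e s` is never in `FS`
  have hesn : ∀ y, D.Vx y → D.e s ∉ FS D y := by
    intro y hy hc
    rw [mem_FS D hy] at hc
    exact hc.2 ((hS D).2.2.2.1 s)
  -- `- e s` is never in the image
  have hesi : -D.e s ∉ (FS D x).image (D.ρ (D.σ s)) := by
    intro hc
    rw [Finset.mem_image] at hc
    obtain ⟨ψ, hψ, he⟩ := hc
    have := congrArg (D.ρ (D.σ s)) he
    rw [hinv, map_neg, hes, neg_neg] at this
    exact hesn x hx (this ▸ hψ)
  set A := FS D (D.act (D.σ s) x) with hA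
  set C := (FS D x).image (D.ρ (D.σ s)) with hC
  by_cases hca : -D.e s ∈ A
  · -- then `e s ∉ C`
    have hcc : D.e s ∉ C := by
      intro hc
      rw [hC, Finset.mem_image] at hc
      obtain ⟨ψ, hψ, he⟩ := hc
      have h6 := congrArg (D.ρ (D.σ s)) he
      rw [hinv, hes] at h6
      rw [hA, mem_FS D hx', hmn, map_neg, hes, neg_neg] at hca
      rw [mem_FS D hx, h6] at hψ
      exact (h1 D).2.2.2.2.2.2.2.2.1 x hx _ hca.1.1 hψ.1.1
    have hAC : A = insert (-D.e s) C := by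
      ext φ
      rw [Finset.mem_insert]
      by_cases h2 : φ = -D.e s
      · rw [h2]; exact ⟨fun _ => Or.inl rfl, fun _ => hca⟩
      · by_cases h3 : φ = D.e s
        · rw [h3]
          constructor
          · intro h; exact absurd h (hesn _ hx')
          · rintro (h | h)
            · exact absurd (h3.trans h) h2
            · exact absurd h hcc
        · rw [hkey φ h3 h2]
          constructor
          · exact Or.inr
          · rintro (h | h)
            · exact absurd h h2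
            · exact h
    rw [hAC, Finset.sum_insert hesi, neg_neg, ht_e]
    linarith
  · by_cases hcc : D.e s ∈ C
    · have hCA : C = insert (D.e s) A := by
        ext φ
        rw [Finset.mem_insert]
        by_cases h3 : φ = D.e s
        · rw [h3]; exact ⟨fun _ => Or.inl rfl, fun _ => hcc⟩
        · by_cases h2 : φ = -D.e s
          · rw [h2]
            constructor
            · intro h; exact absurd h hesi
            · rintro (h | h)
              · exact absurd (h2.trans h) h3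
              · exact absurd h hca
          · rw [← hkey φ h3 h2]
            constructor
            · exact Or.inr
            · rintro (h | h)
              · exact absurd h h3
              · exact h
      rw [hCA, Finset.sum_insert (hesn _ hx'), ht_neg, ht_e]
      linarith
    · have hCA : A = C := by
        ext φ
        by_cases h3 : φ = D.e s
        · rw [h3]
          exact ⟨fun h => absurd h (hesn _ hx'), fun h => absurd h hcc⟩
        · by_cases h2 : φ = -D.e s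
          · rw [h2]
            exact ⟨fun h => absurd h hca, fun h => absurd h hesi⟩
          · exact hkey φ h3 h2
      rw [hCA]
      linarith

end COFp

open COFp in
theorem cof_thm : Stmt_BAS → Stmt_SGN → Stmt_LEN → Stmt_PAR → Stmt_HGT → Stmt_NST → Stmt_VX1 →
    Stmt_VX2 → Stmt_VX3 → Stmt_VX4 → Stmt_DIM → Stmt_AFB → Stmt_COF := by
  intro hB hS _ hP hH _ h1 _ h3 h4 hD hA D hAF J
  obtain ⟨n, hn⟩ := hD D
  obtain ⟨R, hR⟩ := hA D hAF ((n : ℝ) ^ 2)
  refine ⟨{x | D.XJ J x ∧ p D x ≤ R}, ?_, fun x hx => hx.1, ?_⟩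
  · exact (fin_le D hS hH h1 h4 R).subset fun x hx => ⟨hx.1.1, hx.2⟩
  · intro x hx
    -- the orbit
    have hfin : {y | (∃ w ∈ D.par J, y = D.act w x) ∧ p D y ≤ p D x}.Finite := by
      refine (fin_le D hS hH h1 h4 (p D x)).subset ?_
      rintro y ⟨⟨w, hw, rfl⟩, hy⟩
      exact ⟨(XJ_act D hP h1 hx hw).1, hy⟩
    obtain ⟨y, ⟨⟨w, hw, hyw⟩, hyp⟩, hmin⟩ := Set.exists_min_image _ (p D) hfin
      ⟨x, ⟨1, one_mem _, ((h1 D).2.2.1 x).symm⟩, le_rfl⟩
    have hy : D.XJ J y := by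
      rw [hyw]; exact XJ_act D hP h1 hx hw
    refine ⟨w, hw, ?_⟩
    rw [← hyw]
    refine ⟨hy, hR _ (FF_nonneg D hS hy.1) ?_ ?_⟩
    · intro s
      by_cases hs : s ∈ J
      · have h5 := p_refl D hB hS h1 hy.1 s
        have h6 : p D y ≤ p D (D.act (D.σ s) y) := by
          by_cases hc : p D (D.act (D.σ s) y) ≤ p D x
          · refine hmin _ ⟨⟨D.σ s * w, ?_, ?_⟩, hc⟩
            · exact mul_mem (Subgroup.subset_closure ⟨s, hs, rfl⟩) hw
            · rw [hyw, (h1 D).2.2.2.1]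
          · exact hyp.trans (not_le.mp hc).le
        linarith
      · rw [B_e]
        have h7 : ∑ t, FF D y t * D.k t s ≤ 0 := by
          refine Finset.sum_nonpos fun t _ => ?_
          by_cases ht : t = s
          · rw [ht, FF_In D hS h1 hy s hs]
            simp
          · exact mul_nonpos_of_nonneg_of_nonpos (FF_nonneg D hS hy.1 t) (D.off t s ht)
        linarith
    · refine BFF D hB hS h3 hy.1 (hn _ ?_ ?_)
      · intro φ hφ
        rw [mem_FS D hy.1] at hφ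
        exact hy.1.sub hφ.1.1
      · intro φ hφ ψ hψ hne
        exact pair D hS h3 hy.1 hφ hψ hne

end Pool.CS
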