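import Pool.Agent.Work.MP_64ea0f_cs.InterfaceF

set_option autoImplicit false

/-! # F3C: the core of the essential case -/

namespace Pool.CS
namespace F3Cp

variable (D : Rd)

theorem rmul (a b : D.W) (v : D.V) : D.ρ (a * b) v = D.ρ a (D.ρ b v) := by
  rw [map_mul]; rfl

theorem rone (v : D.V) : D.ρ 1 v = v := by
  rw [map_one]; rfl

theorem rinv (a : D.W) (v : D.V) : D.ρ a⁻¹ (D.ρ a v) = v := by
  rw [← rmul, inv_mul_cancel, rone]

theorem rinv' (a : D.W) (v : D.V) : D.ρ a (D.ρ a⁻¹ v) = v := by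
  rw [← rmul, mul_inv_cancel, rone]

theorem mem_cp (g : D.W) (J : Set D.S) (x : D.W) : x ∈ D.cp g J ↔ g⁻¹ * x * g ∈ D.par J := by
  unfold Rd.cp
  rw [Subgroup.mem_map]
  constructor
  · rintro ⟨y, hy, rfl⟩
    have : g⁻¹ * ((MulAut.conj g).toMonoidHom y) * g = y := by
      simp [MulAut.conj_apply]
      group
    rwa [this]
  · intro h
    refine ⟨_, h, ?_⟩
    simp [MulAut.conj_apply]
    group

theorem orth {J1 J2 : Set D.S} (hk : ∀ s ∈ J1, ∀ t ∈ J2, D.k s t = 0) {v w : D.V}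
    (hv : D.In J1 v) (hw : D.In J2 w) : D.B v w = 0 := by
  unfold Rd.B bform
  refine Finset.sum_eq_zero fun s _ => Finset.sum_eq_zero fun t _ => ?_
  by_cases hs : s ∈ J1
  · by_cases ht : t ∈ J2
    · rw [hk s hs t ht, mul_zero]
    · rw [hw t ht]; ring
  · rw [hv s hs]; ring

theorem B_sub_left (hB : Stmt_BAS) (v v' w : D.V) : D.B (v - v') w = D.B v w - D.B v' w := by
  have := (hB D).2.1 1 (-1) v v' w
  have e : v - v' = (1 : ℝ) • v + (-1 : ℝ) • v' := by module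
  rw [e, this]; ring

theorem B_neg_right (hB : Stmt_BAS) (v w : D.V) : D.B v (-w) = - D.B v w := by
  rw [(hB D).1, (hB D).1 v w]
  have := (hB D).2.1 (-1) 0 w 0 v
  simpa using this

theorem B_neg_left (hB : Stmt_BAS) (v w : D.V) : D.B (-v) w = - D.B v w := by
  have := (hB D).2.1 (-1) 0 v 0 w
  simpa using this

theorem In_neg {J : Set D.S} {v : D.V} (h : D.In J v) : D.In J (-v) := by
  intro s hs
  rw [Pi.neg_apply, h s hs, neg_zero]

theorem Sub_refl (φ : D.V) : D.Sub φ φ := fun _ h => h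

/-- translated roots are nested -/
theorem trn_sub (hB : Stmt_BAS) (hN : Stmt_NST) {h : D.W} {φ : D.V} (hφ : φ ∈ D.Rt)
    (ht : D.Trn h φ) {i j : ℤ} (hij : i ≤ j) : D.Sub (D.ρ (h ^ i) φ) (D.ρ (h ^ j) φ) := by
  obtain ⟨n, hn⟩ := Int.eq_ofNat_of_zero_le (sub_nonneg.mpr hij)
  have hj : j = i + (n : ℤ) := by
    rw [← hn]; ring
  rcases Nat.eq_zero_or_pos n with h0 | hpos
  · rw [hj, h0]
    simpa using Sub_refl D _
  · have h1 := (ht n hpos).1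
    have h2 : D.ρ (h ^ n) φ ∈ D.Rt := (hB D).2.2.2.2.2.2.2.1 φ hφ _
    rw [(hN D φ hφ _ h2).2.2.2.2.2 (h ^ i), ← rmul, ← zpow_natCast, ← zpow_add, ← hj] at h1
    exact h1

theorem trn_ne (hB : Stmt_BAS) (hN : Stmt_NST) {h : D.W} {φ : D.V} (hφ : φ ∈ D.Rt)
    (ht : D.Trn h φ) {i j : ℤ} (hij : i < j) : D.ρ (h ^ i) φ ≠ D.ρ (h ^ j) φ := by
  obtain ⟨n, hn⟩ := Int.eq_ofNat_of_zero_le (sub_nonneg.mpr hij.le)
  have hj : j = i + (n : ℤ) := by
    rw [← hn]; ring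
  rcases Nat.eq_zero_or_pos n with h0 | hpos
  · exfalso
    rw [h0] at hj
    simp at hj
    omega
  · intro he
    apply (ht n hpos).2
    rw [hj, zpow_add, rmul, zpow_natCast] at he
    have := congrArg (D.ρ (h ^ i)⁻¹) he
    rw [rinv, rinv] at this
    exact this.symm

theorem trn_B (hB : Stmt_BAS) (hN : Stmt_NST) {h : D.W} {φ : D.V} (hφ : φ ∈ D.Rt)
    (ht : D.Trn h φ) {i j : ℤ} (hij : i < j) : 1 ≤ D.B (D.ρ (h ^ i) φ) (D.ρ (h ^ j) φ) :=
  (hN D _ ((hB D).2.2.2.2.2.2.2.1 φ hφ _) _ ((hB D).2.2.2.2.2.2.2.1 φ hφ _)).1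
    (trn_sub D hB hN hφ ht hij.le) (trn_ne D hB hN hφ ht hij)

theorem max_of_bdd (r : ℕ → ℕ) (C : ℕ) (h : ∀ n, r n ≤ C) : ∃ n, ∀ m, r m ≤ r n := by
  have hf : (Set.range r).Finite := (Set.finite_Iic C).subset (by rintro _ ⟨n, rfl⟩; exact h n)
  obtain ⟨_, ⟨n, rfl⟩, hn⟩ := Set.exists_max_image _ id hf ⟨r 0, 0, rfl⟩
  exact ⟨n, fun m => hn _ ⟨m, rfl⟩⟩

/-- finitely many of the reflections have the same parabolic closure as all of them -/
theorem fin_closure (hPC : Stmt_PCL) (hR : Stmt_RNK) (f : ℤ → D.W) :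
    ∃ n : ℕ, ∀ (g' : D.W) (J' : Set D.S), (∀ i : ℤ, -(n : ℤ) ≤ i → i ≤ n → f i ∈ D.cp g' J') →
      ∀ i, f i ∈ D.cp g' J' := by
  classical
  let R : ℕ → Subgroup D.W := fun n => Subgroup.closure {x | ∃ i : ℤ, -(n : ℤ) ≤ i ∧ i ≤ n ∧ x = f i}
  have hR1 : ∀ n, ∃ (q : D.W × Set D.S), R n ≤ D.cp q.1 q.2 ∧
      ∀ (g' : D.W) (J' : Set D.S), R n ≤ D.cp g' J' → D.cp q.1 q.2 ≤ D.cp g' J' := by
    intro n
    obtain ⟨g, J, h1, h2⟩ := (hPC D (R n)).1
    exact ⟨(g, J), h1, h2⟩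
  choose q hq1 hq2 using hR1
  obtain ⟨n, hn⟩ := max_of_bdd (fun n => (q n).2.ncard) (Nat.card D.S) (by
    intro n
    have := Set.ncard_le_ncard (Set.subset_univ (q n).2) Set.finite_univ
    rwa [Set.ncard_univ] at this)
  refine ⟨n, fun g' J' h i => ?_⟩
  have hmono : ∀ m, n ≤ m → R n ≤ R m := by
    intro m hm
    apply Subgroup.closure_mono
    rintro x ⟨i, h1, h2, rfl⟩
    exact ⟨i, by omega, by omega, rfl⟩
  have hall : ∀ m, n ≤ m → R m ≤ D.cp (q n).1 (q n).2 := by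
    intro m hm
    have hle : D.cp (q n).1 (q n).2 ≤ D.cp (q m).1 (q m).2 := hq2 n _ _ ((hmono m hm).trans (hq1 m))
    have hr := hR D _ _ _ _ hle
    have heq := hr.2.1 (le_antisymm hr.1 (hn m))
    rw [heq]
    exact hq1 m
  have hi : f i ∈ R (max n i.natAbs) := by
    apply Subgroup.subset_closure
    refine ⟨i, ?_, ?_, rfl⟩
    · have := le_max_right n i.natAbs
      omega
    · have := le_max_right n i.natAbs
      omega
  have h3 : R n ≤ D.cp g' J' := by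
    apply (Subgroup.closure_le _).mpr
    rintro x ⟨j, h1, h2, rfl⟩
    exact h j h1 h2
  exact hq2 n _ _ h3 (hall _ (le_max_left _ _) hi)

end F3Cp

open F3Cp in
theorem f3c_thm : Stmt_BAS → Stmt_SGN → Stmt_LEN → Stmt_NST → Stmt_PAR → Stmt_RNK → Stmt_PCL →
    Stmt_FPR → Stmt_NRM → Stmt_DEO → Stmt_IMC → Stmt_CSU → Stmt_CVX → Stmt_TRN → Stmt_KCZ →
    Stmt_NFC → Stmt_F3C := by
  intro hB hS _ hN hP hR hPC hF hNR hDE hI hC hV hT hK hNF D hAF J K h g hE hKJ hconn hKo hcom α hα β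
    hβ hKα hKβ htα hgα htβ hhβ
  classical
  -- the translates
  set A : ℤ → D.V := fun i => D.ρ (h ^ i) α with hAdef
  set Bt : ℤ → D.V := fun i => D.ρ (g ^ i) β with hBdef
  have hcomz : ∀ i j : ℤ, h ^ i * g ^ j = g ^ j * h ^ i := fun i j =>
    ((show Commute h g from hcom).zpow_zpow i j).eq
  have hA : ∀ i, A i ∈ D.Rt := fun i => (hB D).2.2.2.2.2.2.2.1 α hα _
  have hBt : ∀ i, Bt i ∈ D.Rt := fun i => (hB D).2.2.2.2.2.2.2.1 β hβ _
  have hginv : D.ρ g⁻¹ α = α := by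
    have := congrArg (D.ρ g⁻¹) hgα
    rw [rinv] at this
    exact this.symm
  have hhinv : D.ρ h⁻¹ β = β := by
    have := congrArg (D.ρ h⁻¹) hhβ
    rw [rinv] at this
    exact this.symm
  have hβfix : ∀ i : ℤ, D.ρ (h ^ i) β = β := by
    intro i
    induction i using Int.induction_on with
    | zero => rw [zpow_zero, rone]
    | succ i ih => rw [zpow_add_one, rmul, hhβ, ih]
    | pred i ih => rw [zpow_sub_one, rmul, hhinv, ih]
  have hBtfix : ∀ i j : ℤ, D.ρ (h ^ i) (Bt j) = Bt j := by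
    intro i j
    show D.ρ (h ^ i) (D.ρ (g ^ j) β) = D.ρ (g ^ j) β
    rw [← rmul, hcomz, rmul, hβfix]
  have hAB : ∀ i j : ℤ, D.B (A i) (Bt j) = D.B α (Bt j) := by
    intro i j
    have h1 := (hB D).2.2.2.2.1 (h ^ i) α (Bt j)
    rw [hBtfix] at h1
    exact h1
  have hAA : ∀ i j : ℤ, i < j → 1 ≤ D.B (A i) (A j) := fun i j hij => trn_B D hB hN hα htα hij
  have hsubA : ∀ i j : ℤ, i ≤ j → D.Sub (A i) (A j) := fun i j hij => trn_sub D hB hN hα htα hij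
  have hneA : ∀ i j : ℤ, i < j → A i ≠ A j := fun i j hij => trn_ne D hB hN hα htα hij
  have hrt1 : ∀ φ ∈ D.Rt, D.B φ φ = 1 := (hB D).2.2.2.2.2.1
  have hinvB : ∀ w v v', D.B (D.ρ w v) (D.ρ w v') = D.B v v' := (hB D).2.2.2.2.1
  have hrfc : ∀ φ ∈ D.Rt, ∀ w, D.rf (D.ρ w φ) = w * D.rf φ * w⁻¹ :=
    (hB D).2.2.2.2.2.2.2.2.2.2.2.1
  -- (1) the parabolic closure
  obtain ⟨w1, JQ, hQ1, hQ2⟩ := (hPC D (Subgroup.closure {x | ∃ i : ℤ, x = D.rf (A i)})).1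
  have hQmem : ∀ i, D.rf (A i) ∈ D.cp w1 JQ := fun i => hQ1 (Subgroup.subset_closure ⟨i, rfl⟩)
  have hQmin : ∀ g' J', (∀ i, D.rf (A i) ∈ D.cp g' J') → D.cp w1 JQ ≤ D.cp g' J' := by
    intro g' J' h'
    apply hQ2
    apply (Subgroup.closure_le _).mpr
    rintro x ⟨i, rfl⟩
    exact h' i
  have hshift : ∀ i, D.rf (A i) = h * D.rf (A (i - 1)) * h⁻¹ := by
    intro i
    rw [← hrfc _ (hA _)]
    congr 1
    show D.ρ (h ^ i) α = D.ρ h (D.ρ (h ^ (i - 1)) α)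
    rw [← rmul, ← zpow_one_add]
    congr 3
    ring
  have hQh : D.cp w1 JQ = D.cp (h * w1) JQ := by
    have hle : D.cp w1 JQ ≤ D.cp (h * w1) JQ := by
      apply hQmin
      intro i
      rw [mem_cp, hshift]
      have := hQmem (i - 1)
      rw [mem_cp] at this
      have e : (h * w1)⁻¹ * (h * D.rf (A (i - 1)) * h⁻¹) * (h * w1) = w1⁻¹ * D.rf (A (i - 1)) * w1 := by
        group
      rwa [e]
    exact (hR D _ _ _ _ hle).2.1 rfl
  have hnorm : (D.par JQ).map (MulAut.conj (w1⁻¹ * h * w1)).toMonoidHom = D.par JQ := by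
    ext x
    have h1 : x ∈ (D.par JQ).map (MulAut.conj (w1⁻¹ * h * w1)).toMonoidHom ↔
        (w1⁻¹ * h * w1)⁻¹ * x * (w1⁻¹ * h * w1) ∈ D.par JQ := mem_cp D _ JQ x
    rw [h1]
    have h2 : w1 * x * w1⁻¹ ∈ D.cp w1 JQ ↔ w1 * x * w1⁻¹ ∈ D.cp (h * w1) JQ := by rw [← hQh]
    rw [mem_cp, mem_cp] at h2
    have e1 : w1⁻¹ * (w1 * x * w1⁻¹) * w1 = x := by group
    have e2 : (h * w1)⁻¹ * (w1 * x * w1⁻¹) * (h * w1) =
        (w1⁻¹ * h * w1)⁻¹ * x * (w1⁻¹ * h * w1) := by group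
    rw [e1, e2] at h2
    exact h2.symm
  have hAQ : ∀ i, D.In JQ (D.ρ w1⁻¹ (A i)) := by
    intro i
    have h1 := hQmem i
    rw [mem_cp] at h1
    have h2 := hrfc _ (hA i) w1⁻¹
    rw [inv_inv] at h2
    rw [← h2] at h1
    exact (hP D JQ).2.2.2.2.1 _ ((hB D).2.2.2.2.2.2.2.1 _ (hA i) _) h1
  have hNo : D.NoFin JQ := by
    intro K' hK'J hK'n hK'o hfin
    -- adjacent translates cannot be split
    have hspl : ∀ i, D.In (JQ \ K') (D.ρ w1⁻¹ (A i)) := by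
      intro i
      have hor : ∀ s ∈ K', ∀ t ∈ JQ \ K', D.k s t = 0 := hK'o
      have hun : K' ∪ (JQ \ K') = JQ := Set.union_sdiff_cancel hK'J
      have hcs : ∀ j, D.In K' (D.ρ w1⁻¹ (A j)) ∨ D.In (JQ \ K') (D.ρ w1⁻¹ (A j)) := by
        intro j
        refine hC D K' (JQ \ K') hor _ ((hB D).2.2.2.2.2.2.2.1 _ (hA j) _) ?_
        rw [hun]; exact hAQ j
      rcases hcs i with h1 | h1
      · exfalso
        have hBB : 1 ≤ D.B (D.ρ w1⁻¹ (A i)) (D.ρ w1⁻¹ (A (i + 1))) := by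
          rw [hinvB]; exact hAA i (i + 1) (by omega)
        rcases hcs (i + 1) with h2 | h2
        · have h3 := (hF D K' hfin).2 _ ((hB D).2.2.2.2.2.2.2.1 _ (hA i) _) _
            ((hB D).2.2.2.2.2.2.2.1 _ (hA (i + 1)) _) h1 h2 (by
              intro he
              have := congrArg (D.ρ w1) he
              rw [rinv', rinv'] at this
              exact hneA i (i + 1) (by omega) this.symm) (by
              intro he
              rw [he, B_neg_right D hB, hrt1 _ ((hB D).2.2.2.2.2.2.2.1 _ (hA i) _)] at hBB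
              linarith)
          have := (abs_lt.mp h3).2
          linarith
        · have := orth D hor h1 h2
          linarith
      · exact h1
    have hle : D.cp w1 JQ ≤ D.cp w1 (JQ \ K') := by
      apply hQmin
      intro i
      rw [mem_cp]
      have h2 := hrfc _ (hA i) w1⁻¹
      rw [inv_inv] at h2
      rw [← h2]
      exact (hP D (JQ \ K')).2.2.2.1 _ ((hB D).2.2.2.2.2.2.2.1 _ (hA i) _) (hspl i)
    have h4 := (hR D _ _ _ _ hle).1
    have h5 : (JQ \ K').ncard < JQ.ncard := by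
      apply Set.ncard_lt_ncard _ (Set.toFinite _)
      refine ⟨Set.sdiff_subset, fun h6 => ?_⟩
      obtain ⟨s, hs⟩ := hK'n
      exact (h6 (hK'J hs)).2 hs
    omega
  -- (2)
  obtain ⟨n1, hn1⟩ := fin_closure D hPC hR (fun i => D.rf (A i))
  obtain ⟨n2, hn2⟩ := (hT D h α hα htα).2.1 1
  set N : ℕ := max n1 n2 + 1 with hNdef
  have hNn1 : n1 ≤ N := by
    have := le_max_left n1 n2; omega
  have hNn2 : n2 ≤ N := by
    have := le_max_right n1 n2; omega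
  have hN0 : 0 < N := by omega
  have hAN : A N ∈ D.Ps ∧ -A (-(N : ℤ)) ∈ D.Ps := by
    have h1 := hn2 N hNn2
    rw [one_mul, one_mul] at h1
    refine ⟨?_, ?_⟩
    · show D.ρ (h ^ (N : ℤ)) α ∈ D.Ps
      rw [zpow_natCast]; exact h1.1
    · show -D.ρ (h ^ (-(N : ℤ))) α ∈ D.Ps
      rw [zpow_neg, zpow_natCast, ← inv_pow]; exact h1.2
  have hBN : D.B (A N) (-A (-(N : ℤ))) ≤ -1 := by
    rw [B_neg_right D hB, (hB D).1]
    have := hAA (-(N : ℤ)) N (by omega)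
    linarith
  obtain ⟨w, hw1, hw2, hwK⟩ := (hI D).1 _ hAN.1 _ hAN.2 hBN
  set u : D.V := D.ρ w (A N + -A (-(N : ℤ))) with hu
  have husum : u = D.ρ w (A N) + D.ρ w (-A (-(N : ℤ))) := by rw [hu, map_add]
  set J' : Set D.S := {s | u s ≠ 0} with hJ'
  have hJp : D.In J' (D.ρ w (A N)) := by
    intro s hs
    have h0 : u s = 0 := by
      by_contra hne
      exact hs hne
    rw [husum, Pi.add_apply] at h0
    have := hw1.2 s
    have := hw2.2 s
    linarith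
  have hJq : D.In J' (D.ρ w (-A (-(N : ℤ)))) := by
    intro s hs
    have h0 : u s = 0 := by
      by_contra hne
      exact hs hne
    rw [husum, Pi.add_apply] at h0
    have := hw1.2 s
    have := hw2.2 s
    linarith
  have hJq' : D.In J' (D.ρ w (A (-(N : ℤ)))) := by
    have := In_neg D hJq
    rwa [map_neg, neg_neg] at this
  have hsubw : ∀ (v : D.W) φ ψ, φ ∈ D.Rt → ψ ∈ D.Rt → D.Sub φ ψ → D.Sub (D.ρ v φ) (D.ρ v ψ) :=
    fun v φ ψ h1 h2 h3 => ((hN D φ h1 ψ h2).2.2.2.2.2 v).mp h3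
  have hmid : ∀ i : ℤ, -(N : ℤ) ≤ i → i ≤ N → D.In J' (D.ρ w (A i)) := by
    intro i hi1 hi2
    refine hV D J' (D.ρ w (A (-(N : ℤ)))) ((hB D).2.2.2.2.2.2.2.1 _ (hA _) _) _
      ((hB D).2.2.2.2.2.2.2.1 _ (hA i) _) (D.ρ w (A N)) ((hB D).2.2.2.2.2.2.2.1 _ (hA _) _)
      (hsubw w _ _ (hA _) (hA _) (hsubA _ _ hi1)) (hsubw w _ _ (hA _) (hA _) (hsubA _ _ hi2))
      hJq' hJp ?_ hw1
    have h1 := (hS D).2.1 _ hw2
    rwa [map_neg, neg_neg] at h1
  have hQJ' : D.cp w1 JQ ≤ D.cp w⁻¹ J' := by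
    apply hQmin
    apply hn1
    intro i hi1 hi2
    rw [mem_cp]
    have h2 := hrfc _ (hA i) w
    rw [inv_inv, ← h2]
    exact (hP D J').2.2.2.1 _ ((hB D).2.2.2.2.2.2.2.1 _ (hA i) _) (hmid i (by omega) (by omega))
  -- (3)
  have hBu : ∀ j, D.B u (D.ρ w (Bt j)) = 0 := by
    intro j
    rw [hu, hinvB, ← sub_eq_add_neg, B_sub_left D hB, hAB, hAB, sub_self]
  obtain ⟨m0, hm0⟩ := (hT D g β hβ htβ).2.1 w
  set m : ℕ := m0 + 1 with hm
  have hβm := hm0 m (by omega)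
  have e1 : D.ρ (w * g ^ m) β = D.ρ w (Bt m) := by
    rw [rmul]
    show _ = D.ρ w (D.ρ (g ^ (m : ℤ)) β)
    rw [zpow_natCast]
  have e2 : D.ρ (w * g⁻¹ ^ m) β = D.ρ w (Bt (-(m : ℤ))) := by
    rw [rmul]
    show _ = D.ρ w (D.ρ (g ^ (-(m : ℤ))) β)
    rw [zpow_neg, zpow_natCast, inv_pow]
  rw [e1, e2] at hβm
  have hBmm : D.B (D.ρ w (Bt m)) (-D.ρ w (Bt (-(m : ℤ)))) ≤ -1 := by
    rw [B_neg_right D hB, hinvB, (hB D).1]
    have := trn_B D hB hN hβ htβ (i := -(m : ℤ)) (j := m) (by omega)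
    have h3 : 1 ≤ D.B (Bt (-(m : ℤ))) (Bt m) := this
    linarith
  have hKK := hK D hAF u hwK _ hβm.1 _ hβm.2 (hBu m) (by
    rw [B_neg_right D hB, hBu, neg_zero]) hBmm
  have hperp : D.In (D.perp J') (D.ρ w β) := by
    have hβ0 : Bt 0 = β := by
      show D.ρ (g ^ (0 : ℤ)) β = β
      rw [zpow_zero, rone]
    have hneg : D.In (D.perp J') (D.ρ w (Bt (-(m : ℤ)))) := by
      have := In_neg D hKK.2
      rwa [neg_neg] at this
    have hs1 : D.Sub (Bt (-(m : ℤ))) (Bt 0) := trn_sub D hB hN hβ htβ (by omega)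
    have hs2 : D.Sub (Bt 0) (Bt m) := trn_sub D hB hN hβ htβ (by omega)
    have := hV D (D.perp J') (D.ρ w (Bt (-(m : ℤ)))) ((hB D).2.2.2.2.2.2.2.1 _ (hBt _) _)
      (D.ρ w (Bt 0)) ((hB D).2.2.2.2.2.2.2.1 _ (hBt _) _) (D.ρ w (Bt m))
      ((hB D).2.2.2.2.2.2.2.1 _ (hBt _) _) (hsubw w _ _ (hBt _) (hBt _) hs1)
      (hsubw w _ _ (hBt _) (hBt _) hs2) hneg hKK.1 (by
        have h1 := (hS D).2.1 _ hβm.2
        rwa [neg_neg] at h1) hβm.1
    rwa [hβ0] at this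
  have hkp : ∀ (I : Set D.S), ∀ s ∈ D.perp I, ∀ t ∈ I, D.k s t = 0 := fun I s hs t ht => hs t ht
  have hkp' : ∀ (I : Set D.S), ∀ s ∈ I, ∀ t ∈ D.perp I, D.k s t = 0 := fun I s hs t ht => by
    rw [D.symm]; exact ht s hs
  have heIn : ∀ (I : Set D.S), ∀ s ∈ I, D.In I (D.e s) := by
    intro I s hs t ht
    unfold Rd.e
    rw [Pi.single_apply, if_neg]
    rintro rfl
    exact ht hs
  have hβQ : D.In (D.perp JQ) (D.ρ w1⁻¹ β) := by
    refine hNF D hAF JQ hNo _ ((hB D).2.2.2.2.2.2.2.1 _ hβ _) ?_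
    intro s hs
    have h1 := (hR D _ _ _ _ hQJ').2.2 _ (heIn JQ s hs)
    rw [inv_inv] at h1
    have h2 := orth D (hkp J') hperp h1
    rw [rmul, hinvB] at h2
    rw [← h2, ← hinvB w1, rinv']
  -- (4)
  obtain ⟨p, hp, hpn⟩ := (hNR D JQ).1 _ hnorm
  have hpn' := hDE D JQ hNo _ hpn
  have hmono : ∀ I I' : Set D.S, I ⊆ I' → D.par I ≤ D.par I' := fun I I' hI' =>
    Subgroup.closure_mono (Set.image_mono hI')
  have hhU : h ∈ D.cp w1 (JQ ∪ D.perp JQ) := by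
    rw [mem_cp]
    have h1 : p⁻¹ * (p * (w1⁻¹ * h * w1)) ∈ D.par (JQ ∪ D.perp JQ) :=
      mul_mem (inv_mem (hmono _ _ Set.subset_union_left hp)) (hmono _ _ Set.subset_union_right hpn')
    rwa [inv_mul_cancel_left] at h1
  have hJU : D.par J ≤ D.cp w1 (JQ ∪ D.perp JQ) := by
    refine hE.2 1 one_pos _ _ ?_
    rwa [pow_one]
  have hJU' : D.cp 1 J ≤ D.cp w1 (JQ ∪ D.perp JQ) := by
    intro x hx
    apply hJU
    rw [mem_cp] at hx
    simpa using hx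
  have heU : ∀ s ∈ K, D.In (JQ ∪ D.perp JQ) (D.ρ w1⁻¹ (D.e s)) := by
    intro s hs
    have := (hR D _ _ _ _ hJU').2.2 _ (heIn J s (hKJ hs))
    rwa [mul_one] at this
  have hsplit : ∀ s ∈ K, D.In JQ (D.ρ w1⁻¹ (D.e s)) ∨ D.In (D.perp JQ) (D.ρ w1⁻¹ (D.e s)) := by
    intro s hs
    exact hC D JQ (D.perp JQ) (hkp' JQ) _
      ((hB D).2.2.2.2.2.2.2.1 _ ((hB D).2.2.2.2.2.2.1 s) _) (heU s hs)
  -- combinations
  have hcomb : ∀ (I I' : Set D.S) (v : D.V), D.In I' v → (∀ s ∈ I', D.In I (D.ρ w1⁻¹ (D.e s))) →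
      D.In I (D.ρ w1⁻¹ v) := by
    intro I I' v hv h1 t ht
    have hvs : v = ∑ s, v s • D.e s := by
      funext r
      rw [Finset.sum_apply, Finset.sum_eq_single r]
      · simp [Rd.e]
      · intro b _ hb
        simp [Rd.e, Ne.symm hb]
      · intro h2
        exact absurd (Finset.mem_univ r) h2
    rw [hvs, map_sum, Finset.sum_apply]
    refine Finset.sum_eq_zero fun s _ => ?_
    rw [map_smul, Pi.smul_apply]
    by_cases hs : s ∈ I'
    · rw [h1 s hs t ht, smul_zero]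
    · rw [hv s hs, zero_smul]
  have hα0 : A 0 = α := by
    show D.ρ (h ^ (0 : ℤ)) α = α
    rw [zpow_zero, rone]
  have hαQ : D.In JQ (D.ρ w1⁻¹ α) := by
    have := hAQ 0
    rwa [hα0] at this
  have hself : ∀ γ ∈ D.Rt, D.In JQ (D.ρ w1⁻¹ γ) → D.In (D.perp JQ) (D.ρ w1⁻¹ γ) → False := by
    intro γ hγ h1 h2
    have h3 := orth D (hkp' JQ) h1 h2
    rw [hrt1 _ ((hB D).2.2.2.2.2.2.2.1 _ hγ _)] at h3
    exact one_ne_zero h3
  by_cases hne : {s | s ∈ K ∧ D.In JQ (D.ρ w1⁻¹ (D.e s))}.Nonempty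
  · have hall := hconn {s | s ∈ K ∧ D.In JQ (D.ρ w1⁻¹ (D.e s))} (fun s hs => hs.1) hne (by
      rintro s ⟨hs1, hs2⟩ t ⟨ht1, ht2⟩
      have h3 : D.In (D.perp JQ) (D.ρ w1⁻¹ (D.e t)) := by
        rcases hsplit t ht1 with h4 | h4
        · exact absurd ⟨ht1, h4⟩ ht2
        · exact h4
      have h4 := orth D (hkp' JQ) hs2 h3
      rw [hinvB, (hB D).2.2.1] at h4
      exact h4)
    refine hself β hβ (hcomb JQ K β hKβ fun s hs => ?_) hβQ
    have : s ∈ {s | s ∈ K ∧ D.In JQ (D.ρ w1⁻¹ (D.e s))} := by rw [hall]; exact hs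
    exact this.2
  · refine hself α hα hαQ (hcomb _ K α hKα fun s hs => ?_)
    rcases hsplit s hs with h4 | h4
    · exact absurd ⟨s, hs, h4⟩ hne
    · exact h4

end Pool.CS
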